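import Pool.Agent.TH876.KR.Main
import Pool.Agent.Y728.Iter
import Pool.Agent.W578.CF.DIVS

/-!
Lower bound for the number of abc points over a number field: local facts.
-/

set_option autoImplicit false

namespace Pool.Agent.Y812.LK

open Finset NumberField IsDedekindDomain Pool.Agent.H691R3 Pool.Agent.TH876.Loc Pool.Agent.TH876.KR
open Pool.Agent.Y728 (av_inl_le_house sum_mult liouville)

variable {K : Type} [Field K] [NumberField K]

theorem coe_ne {ξ : 𝓞 K} (hξ : ξ ≠ 0) : (ξ : K) ≠ 0 := fun h =>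
  hξ (RingOfIntegers.coe_eq_zero_iff.1 h)

theorem log_fv_le (v : Pr K) {ξ : 𝓞 K} (hξ : ξ ≠ 0) (h : fv v (ξ : K) ≠ 1) :
    Real.log (Nv v) ≤ -Real.log (fv v (ξ : K)) := by
  obtain ⟨a, ha⟩ := log_fv v (coe_ne hξ)
  have h1 := fv_int_le v ξ
  have h0 : 0 < fv v (ξ : K) := (fv v).pos (coe_ne hξ)
  have h2 : Real.log (fv v (ξ : K)) < 0 := Real.log_neg h0 (lt_of_le_of_ne h1 h)
  have hN := log_Nv_pos' v
  rw [ha] at h2 ⊢
  have h3 : a < 0 := by
    by_contra hcon
    push Not at hcon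
    have : (0 : ℝ) ≤ (a : ℝ) := by exact_mod_cast hcon
    nlinarith
  have h4 : (a : ℝ) ≤ -1 := by exact_mod_cast (by omega : a ≤ -1)
  nlinarith

theorem nn_le {ξ : 𝓞 K} (hξ : ξ ≠ 0) {B : ℝ} (hB : 1 ≤ B) (hh : house (ξ : K) ≤ B)
    (V : Finset (Pr K)) (hV : ∀ v ∈ V, fv v (ξ : K) ≠ 1) : nn V ≤ B ^ (Module.finrank ℚ K) := by
  classical
  have hξ' := coe_ne hξ
  set S : Finset (Pr K) := (fv_support_finite hξ').toFinset with hS
  have hmS : ∀ v, v ∈ S ↔ fv v (ξ : K) ≠ 1 := fun v => Set.Finite.mem_toFinset _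
  have hVS : V ⊆ S := fun v hv => (hmS v).2 (hV v hv)
  have h0 := sum_lg hξ' (V := S) (fun v hv => by
    by_contra hne
    exact hv ((hmS v).2 hne))
  rw [sum_Spl] at h0
  have h1 : ∑ v ∈ S, Real.log (Nv v) ≤ -∑ v ∈ S, lg (Sum.inr v : Pl K) (ξ : K) := by
    rw [← Finset.sum_neg_distrib]
    refine Finset.sum_le_sum fun v hv => ?_
    have := log_fv_le v hξ ((hmS v).1 hv)
    have e : lg (Sum.inr v : Pl K) (ξ : K) = Real.log (fv v (ξ : K)) := by
      show 1 * Real.log (fv v (ξ : K)) = _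
      rw [one_mul]
    rw [e]
    exact this
  have hlB : 0 ≤ Real.log B := Real.log_nonneg hB
  have h2 : ∑ w : InfinitePlace K, lg (Sum.inl w : Pl K) (ξ : K) ≤
      Module.finrank ℚ K * Real.log B := by
    rw [← sum_mult, Finset.sum_mul]
    refine Finset.sum_le_sum fun w _ => ?_
    show (w.mult : ℝ) * Real.log (av (Sum.inl w : Pl K) (ξ : K)) ≤ (w.mult : ℝ) * Real.log B
    refine mul_le_mul_of_nonneg_left ?_ (Nat.cast_nonneg _)
    exact Real.log_le_log ((av _).pos hξ') ((av_inl_le_house w _).trans hh)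
  have h3 : Real.log (nn V) ≤ Module.finrank ℚ K * Real.log B := by
    rw [log_nn]
    have h4 : ∑ v ∈ V, Real.log (Nv v) ≤ ∑ v ∈ S, Real.log (Nv v) :=
      Finset.sum_le_sum_of_subset_of_nonneg hVS fun v _ _ => (log_Nv_pos' v).le
    linarith
  rw [← Real.log_pow] at h3
  exact (Real.log_le_log_iff (nn_pos V) (by positivity)).1 h3

theorem sp_le {a b : 𝓞 K} (ha : a ≠ 0) (hb : b ≠ 0) (hab : a + b ≠ 0) {T : ℝ} (hT : 1 ≤ T)
    (h1 : house (a : K) ≤ T) (h2 : house (b : K) ≤ T) :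
    Pt ((a : K) / b) ∧ nn (sp ((a : K) / b)) ≤ (2 * T ^ 3) ^ (Module.finrank ℚ K) := by
  have ha' := coe_ne ha
  have hb' := coe_ne hb
  have hab' : (a : K) + b ≠ 0 := by
    have := coe_ne hab
    have e : ((a + b : 𝓞 K) : K) = (a : K) + b := rfl
    rwa [e] at this
  have hx1 : (a : K) / b + 1 = ((a : K) + b) / b := by field_simp
  have hpt : Pt ((a : K) / b) := by
    refine ⟨div_ne_zero ha' hb', ?_⟩
    rw [hx1]
    exact div_ne_zero hab' hb'
  refine ⟨hpt, ?_⟩
  have hz : a * b * (a + b) ≠ 0 := mul_ne_zero (mul_ne_zero ha hb) hab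
  have hT0 : 0 ≤ T := by linarith
  have ez : ((a * b * (a + b) : 𝓞 K) : K) = (a : K) * b * ((a : K) + b) := rfl
  refine nn_le hz (B := 2 * T ^ 3) (by nlinarith [one_le_pow₀ hT (n := 3)]) ?_ _ ?_
  · rw [ez]
    calc house ((a : K) * b * ((a : K) + b)) ≤ house ((a : K) * b) * house ((a : K) + b) :=
          house_mul_le _ _
      _ ≤ (T * T) * (T + T) := by
          refine mul_le_mul ?_ ?_ (house_nonneg _) (by positivity)
          · exact (house_mul_le _ _).trans (mul_le_mul h1 h2 (house_nonneg _) hT0)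
          · exact (house_add_le _ _).trans (add_le_add h1 h2)
      _ = 2 * T ^ 3 := by ring
  · intro v hv hone
    rw [ez, map_mul, map_mul] at hone
    have i1 := fv_int_le v a
    have i2 := fv_int_le v b
    have i3 := fv_int_le v (a + b)
    have e3 : ((a + b : 𝓞 K) : K) = (a : K) + b := rfl
    rw [e3] at i3
    have n1 := (fv v).nonneg (a : K)
    have n2 := (fv v).nonneg (b : K)
    have n3 := (fv v).nonneg ((a : K) + b)
    have p12 : fv v (a : K) * fv v (b : K) ≤ 1 := mul_le_one₀ i1 n2 i2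
    have n12 : 0 ≤ fv v (a : K) * fv v (b : K) := mul_nonneg n1 n2
    have k3 : fv v ((a : K) + b) = 1 := by
      refine le_antisymm i3 ?_
      by_contra hcon
      push Not at hcon
      nlinarith
    have k12 : fv v (a : K) * fv v (b : K) = 1 := by rw [k3, mul_one] at hone; exact hone
    have k2 : fv v (b : K) = 1 := by
      refine le_antisymm i2 ?_
      by_contra hcon
      push Not at hcon
      nlinarith
    have k1 : fv v (a : K) = 1 := by rw [k2, mul_one] at k12; exact k12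
    rw [mem_sp hpt] at hv
    apply hv
    constructor
    · rw [map_div₀, k1, k2, div_one]
    · rw [hx1, map_div₀, k3, k2, div_one]

end Pool.Agent.Y812.LK
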